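import Pool.Agent.Helper63.P705.NUM.Goals

/-!
# Packet NUM-N10 (MP_705522_gt): all derivatives of `f0`
-/

namespace Pool.Agent.Helper15.P705

open Pool.Agent.Helper63.P705
open Pool.Agent.Helper53.PT (mo f0 nu aMO aLAW)
open Pool.Agent.Helper69.PT (Ent dc)
open MeasureTheory Set

/-- coefficients of the `m`-th derivative of `∑ (-1)^j b_j x^j` -/
noncomputable def cm (b : ℕ → ℝ) (m j : ℕ) : ℝ :=
  (-1) ^ (j + m) * (((j + m).factorial : ℝ) / (j.factorial : ℝ)) * b (j + m)

/-- the function -/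
noncomputable def S (b : ℕ → ℝ) (m : ℕ) (x : ℝ) : ℝ := ∑' j : ℕ, cm b m j * x ^ j

theorem dc_cm (b : ℕ → ℝ) (m j : ℕ) : cm b (m + 1) j = dc (cm b m) j := by
  unfold dc cm
  rw [show j + (m + 1) = j + 1 + m by ring, Nat.factorial_succ j]
  have h1 : (j.factorial : ℝ) ≠ 0 := by positivity
  have h2 : (j : ℝ) + 1 ≠ 0 := by positivity
  push_cast
  field_simp

theorem ent_cm {b : ℕ → ℝ} (h : Ent (cm b 0)) (m : ℕ) : Ent (cm b m) := by
  induction m with
  | zero => exact h
  | succ m ih => exact ih.dc.congr fun j => dc_cm b m j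

theorem S_hasDerivAt {b : ℕ → ℝ} (h : Ent (cm b 0)) (m : ℕ) (x : ℝ) :
    HasDerivAt (S b m) (S b (m + 1) x) x := by
  have h1 := (ent_cm h m).hasDerivAt x
  have h2 : S b (m + 1) x = ∑' j : ℕ, dc (cm b m) j * x ^ j := by
    unfold S
    refine tsum_congr fun j => ?_
    rw [dc_cm]
  rw [h2]
  exact h1

theorem S_deriv {b : ℕ → ℝ} (h : Ent (cm b 0)) (m : ℕ) : deriv (S b m) = S b (m + 1) :=
  funext fun x => (S_hasDerivAt h m x).deriv

theorem S_iter {b : ℕ → ℝ} (h : Ent (cm b 0)) (m : ℕ) : iteratedDeriv m (S b 0) = S b m := by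
  induction m with
  | zero => rw [iteratedDeriv_zero]
  | succ m ih => rw [iteratedDeriv_succ, ih, S_deriv h]

theorem S_diff {b : ℕ → ℝ} (h : Ent (cm b 0)) (n m : ℕ) : ContDiff ℝ n (S b m) := by
  induction n generalizing m with
  | zero =>
    exact contDiff_zero.2 (continuous_iff_continuousAt.2 fun x => (S_hasDerivAt h m x).continuousAt)
  | succ n ih =>
    have h1 : ((n + 1 : ℕ) : WithTop ℕ∞) = (n : WithTop ℕ∞) + 1 := by norm_cast
    rw [h1, contDiff_succ_iff_deriv]
    refine ⟨fun x => (S_hasDerivAt h m x).differentiableAt, fun hn => ?_, ?_⟩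
    · exact absurd hn (by simp)
    · rw [S_deriv h]
      exact ih (m + 1)

theorem S_sum {b : ℕ → ℝ} (h : Ent (cm b 0)) (m : ℕ) (x : ℝ) : Summable fun j : ℕ => cm b m j * x ^ j := by
  refine Summable.of_norm_bounded (ent_cm h m |x| (abs_nonneg x)) fun j => ?_
  rw [Real.norm_eq_abs, abs_mul, abs_pow]

/-! ### The kernel `cos √v` -/

/-- `1/(2j)!` -/
noncomputable def cc (j : ℕ) : ℝ := 1 / ((2 * j).factorial : ℝ)

theorem ent_cc : Ent (cm cc 0) := by
  intro r hr
  refine Summable.of_nonneg_of_le (fun j => by positivity) (fun j => ?_)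
    (Real.summable_pow_div_factorial r)
  have h3 : |cm cc 0 j| = 1 / ((2 * j).factorial : ℝ) := by
    unfold cm cc
    rw [Nat.add_zero, div_self (by positivity), mul_one, abs_mul, abs_pow, abs_neg, abs_one, one_pow,
      one_mul, abs_of_pos (by positivity)]
  rw [h3]
  have h4 : (1 : ℝ) / (2 * j).factorial ≤ 1 / j.factorial := by
    refine one_div_le_one_div_of_le (by positivity) ?_
    exact_mod_cast Nat.factorial_le (by omega : j ≤ 2 * j)
  calc 1 / ((2 * j).factorial : ℝ) * r ^ j ≤ 1 / j.factorial * r ^ j :=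
        mul_le_mul_of_nonneg_right h4 (by positivity)
    _ = r ^ j / j.factorial := by ring

theorem cc_succ (k : ℕ) : ((k : ℝ) + 1) * (2 * k + 1) * cc (k + 1) = 1 / 2 * cc k := by
  unfold cc
  have h3 : ((2 * (k + 1)).factorial : ℝ) = 2 * (k + 1) * ((2 * k + 1) * (2 * k).factorial) := by
    have : (2 * (k + 1)).factorial = 2 * (k + 1) * ((2 * k + 1) * (2 * k).factorial) := by
      rw [show 2 * (k + 1) = (2 * k + 1) + 1 by ring, Nat.factorial_succ, Nat.factorial_succ]
    rw [this]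
    push_cast
    ring
  rw [h3]
  have h1 : ((2 * k).factorial : ℝ) ≠ 0 := by positivity
  have h2 : (k : ℝ) + 1 ≠ 0 := by positivity
  have h4 : 2 * (k : ℝ) + 1 ≠ 0 := by positivity
  field_simp

theorem cm_cc (m j : ℕ) :
    (2 * (m : ℝ) + 1 + 2 * j) * cm cc (m + 1) j = -(1 / 2) * cm cc m j := by
  unfold cm
  have h := cc_succ (j + m)
  rw [show j + (m + 1) = j + m + 1 by ring, Nat.factorial_succ, pow_succ]
  push_cast at h ⊢
  have h2 : (2 * (m : ℝ) + 1 + 2 * j) *
      ((-1) ^ (j + m) * -1 * (((j : ℝ) + m + 1) * ((j + m).factorial : ℝ) / (j.factorial : ℝ)) * cc (j + m + 1)) =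
      -((-1) ^ (j + m) * (((j + m).factorial : ℝ) / (j.factorial : ℝ)) *
        (((j : ℝ) + m + 1) * (2 * ((j : ℝ) + m) + 1) * cc (j + m + 1))) := by ring
  rw [h2, h]
  ring

theorem S_rec (m : ℕ) (w : ℝ) :
    (2 * (m : ℝ) + 1) * S cc (m + 1) w + 2 * w * S cc (m + 2) w = -(1 / 2) * S cc m w := by
  have hs1 := S_sum ent_cc (m + 1) w
  have hs2 := S_sum ent_cc (m + 2) w
  have hs0 := S_sum ent_cc m w
  have e1 : 2 * w * S cc (m + 2) w = ∑' j : ℕ, 2 * (j : ℝ) * (cm cc (m + 1) j * w ^ j) := by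
    have hg : Summable fun j : ℕ => 2 * (j : ℝ) * (cm cc (m + 1) j * w ^ j) := by
      rw [← summable_nat_add_iff 1]
      refine (hs2.mul_left (2 * w)).congr fun j => ?_
      rw [dc_cm cc (m + 1) j]
      unfold dc
      push_cast
      ring
    rw [hg.tsum_eq_zero_add]
    simp only [Nat.cast_zero, mul_zero, zero_mul, zero_add]
    unfold S
    rw [← tsum_mul_left]
    refine tsum_congr fun j => ?_
    rw [dc_cm cc (m + 1) j]
    unfold dc
    push_cast
    ring
  have hg : Summable fun j : ℕ => 2 * (j : ℝ) * (cm cc (m + 1) j * w ^ j) := by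
    rw [← summable_nat_add_iff 1]
    refine (hs2.mul_left (2 * w)).congr fun j => ?_
    rw [dc_cm cc (m + 1) j]
    unfold dc
    push_cast
    ring
  rw [e1]
  unfold S
  rw [← tsum_mul_left, ← tsum_mul_left, ← (hs1.mul_left _).tsum_add hg]
  refine tsum_congr fun j => ?_
  have := cm_cc m j
  calc (2 * (m : ℝ) + 1) * (cm cc (m + 1) j * w ^ j) + 2 * (j : ℝ) * (cm cc (m + 1) j * w ^ j)
      = ((2 * (m : ℝ) + 1 + 2 * j) * cm cc (m + 1) j) * w ^ j := by ring
    _ = _ := by rw [this]; ring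

theorem S_zero_eq (v : ℝ) (hv : 0 ≤ v) : S cc 0 v = Real.cos (√v) := by
  have h := (Real.hasSum_cos (√v)).tsum_eq
  rw [← h]
  unfold S
  refine tsum_congr fun j => ?_
  unfold cm cc
  rw [pow_mul, Real.sq_sqrt hv, Nat.add_zero, div_self (by positivity)]
  ring

/-- `|c^(m)(v)| ≤ m!/(2m)!` -/
theorem S_bd (m : ℕ) : ∀ v : ℝ, 0 ≤ v → |S cc m v| ≤ (m.factorial : ℝ) * cc m := by
  induction m with
  | zero =>
    intro v hv
    rw [S_zero_eq v hv]
    unfold cc
    simpa using Real.abs_cos_le_one _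
  | succ m ih =>
    intro v hv
    set M : ℝ := (m.factorial : ℝ) * cc m with hM
    have hM' : ((m + 1).factorial : ℝ) * cc (m + 1) = M / (2 * (2 * (m : ℝ) + 1)) := by
      have h := cc_succ m
      have h4 : 2 * (m : ℝ) + 1 ≠ 0 := by positivity
      rw [hM, eq_div_iff (by positivity), Nat.factorial_succ]
      push_cast
      calc ((m : ℝ) + 1) * (m.factorial : ℝ) * cc (m + 1) * (2 * (2 * (m : ℝ) + 1))
          = 2 * (m.factorial : ℝ) * (((m : ℝ) + 1) * (2 * m + 1) * cc (m + 1)) := by ring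
        _ = _ := by rw [h]; ring
    rw [hM']
    -- the derivative of `t^(2m+1) S (t² v)`
    have hd : ∀ t : ℝ, HasDerivAt (fun t : ℝ => t ^ (2 * m + 1) * S cc (m + 1) (t ^ 2 * v))
        (-(1 / 2) * t ^ (2 * m) * S cc m (t ^ 2 * v)) t := by
      intro t
      have h1 := (hasDerivAt_pow (2 * m + 1) t)
      have h2 : HasDerivAt (fun t : ℝ => t ^ 2 * v) (2 * t * v) t := by
        have := (hasDerivAt_pow 2 t).mul_const v
        simpa using this
      have h3 : HasDerivAt (fun t : ℝ => S cc (m + 1) (t ^ 2 * v)) (S cc (m + 2) (t ^ 2 * v) * (2 * t * v)) t :=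
        HasDerivAt.comp (h₂ := S cc (m + 1)) (h := fun t : ℝ => t ^ 2 * v) t
          (S_hasDerivAt ent_cc (m + 1) (t ^ 2 * v)) h2
      have h5 := S_rec m (t ^ 2 * v)
      refine HasDerivAt.congr_deriv (h1.mul h3) ?_
      push_cast
      have : -(1 / 2) * t ^ (2 * m) * S cc m (t ^ 2 * v) = t ^ (2 * m) *
        ((2 * (m : ℝ) + 1) * S cc (m + 1) (t ^ 2 * v) + 2 * (t ^ 2 * v) * S cc (m + 2) (t ^ 2 * v)) := by
        rw [h5]; ring
      rw [this]
      ring
    have hp : ∀ t : ℝ, HasDerivAt (fun t : ℝ => M / (2 * (2 * (m : ℝ) + 1)) * t ^ (2 * m + 1))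
        (M / 2 * t ^ (2 * m)) t := by
      intro t
      have h1 := (hasDerivAt_pow (2 * m + 1) t).const_mul (M / (2 * (2 * (m : ℝ) + 1)))
      refine HasDerivAt.congr_deriv h1 ?_
      have h4 : 2 * (m : ℝ) + 1 ≠ 0 := by positivity
      push_cast
      field_simp
    have key : ∀ (s : ℝ), (s = 1 ∨ s = -1) →
        0 ≤ M / (2 * (2 * (m : ℝ) + 1)) - s * S cc (m + 1) v := by
      intro s hs
      have hmono : MonotoneOn (fun t : ℝ => M / (2 * (2 * (m : ℝ) + 1)) * t ^ (2 * m + 1) -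
          s * (t ^ (2 * m + 1) * S cc (m + 1) (t ^ 2 * v))) (Icc 0 1) := by
        have hD : ∀ t : ℝ, HasDerivAt (fun t : ℝ => M / (2 * (2 * (m : ℝ) + 1)) * t ^ (2 * m + 1) -
          s * (t ^ (2 * m + 1) * S cc (m + 1) (t ^ 2 * v)))
          (M / 2 * t ^ (2 * m) - s * (-(1 / 2) * t ^ (2 * m) * S cc m (t ^ 2 * v))) t := fun t =>
          (hp t).sub ((hd t).const_mul s)
        refine monotoneOn_of_deriv_nonneg (convex_Icc 0 1)
          (continuousOn_of_forall_continuousAt fun t _ => (hD t).continuousAt)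
          (fun t _ => (hD t).differentiableAt.differentiableWithinAt) fun t ht => ?_
        rw [(hD t).deriv]
        have hb := ih (t ^ 2 * v) (by positivity)
        have hb' := abs_le.1 hb
        have ht2 : (0 : ℝ) ≤ t ^ (2 * m) := by
          rw [pow_mul]; positivity
        have : M / 2 * t ^ (2 * m) - s * (-(1 / 2) * t ^ (2 * m) * S cc m (t ^ 2 * v)) =
          t ^ (2 * m) / 2 * (M + s * S cc m (t ^ 2 * v)) := by ring
        rw [this]
        refine mul_nonneg (by positivity) ?_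
        rcases hs with rfl | rfl <;> linarith [hb'.1, hb'.2]
      have h01 := hmono (left_mem_Icc.2 zero_le_one) (right_mem_Icc.2 zero_le_one) zero_le_one
      have hz : (0 : ℝ) ^ (2 * m + 1) = 0 := by simp
      simp only [hz, mul_zero, zero_mul, sub_zero, one_pow, one_mul, mul_one] at h01
      exact h01
    have k1 := key 1 (Or.inl rfl)
    have k2 := key (-1) (Or.inr rfl)
    rw [abs_le]
    constructor <;> linarith

/-! ### `f0` -/

theorem f0_eq (θ : ℝ) : f0 θ = S (al θ) 0 := by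
  funext x
  unfold f0 S
  refine tsum_congr fun j => ?_
  unfold cm al
  rw [Nat.add_zero, div_self (by positivity), mul_one]

theorem ent_al {θ : ℝ} (h0 : 0 < θ) (h1 : θ < 1 / 2) : Ent (cm (al θ) 0) := by
  refine (Pool.Agent.Helper69.PT.ent0 aMO h0 h1).congr fun j => ?_
  unfold cm al Pool.Agent.Helper69.PT.c0
  rw [Nat.add_zero, div_self (by positivity), mul_one]

theorem S_al_eq {θ : ℝ} (h0 : 0 < θ) (h1 : θ < 1 / 2) (m : ℕ) (x : ℝ) (hx : 0 ≤ x) :
    S (al θ) m x = ∫ y, y ^ (2 * m) * S cc m (x * y ^ 2) ∂(nu θ) := by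
  obtain ⟨hP, hpos, hint, hmom, -⟩ := aLAW h0 h1
  have hE : ∀ i : ℕ, cm (al θ) m i * x ^ i = (cm cc m i * x ^ i) * mo θ (i + m) := by
    intro i
    unfold cm cc al
    ring
  have hInt : ∀ i : ℕ, Integrable (fun y : ℝ => (cm cc m i * x ^ i) * y ^ (2 * (i + m))) (nu θ) :=
    fun i => (hint (2 * (i + m))).const_mul _
  have hI : ∀ i : ℕ, ∫ y : ℝ, (cm cc m i * x ^ i) * y ^ (2 * (i + m)) ∂(nu θ) = cm (al θ) m i * x ^ i := by
    intro i
    rw [integral_const_mul, hmom, hE]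
  have hN : ∀ i : ℕ, ∫ y : ℝ, ‖(cm cc m i * x ^ i) * y ^ (2 * (i + m))‖ ∂(nu θ) = |cm (al θ) m i| * x ^ i := by
    intro i
    have : ∀ y : ℝ, ‖(cm cc m i * x ^ i) * y ^ (2 * (i + m))‖ = |cm cc m i * x ^ i| * y ^ (2 * (i + m)) := by
      intro y
      rw [Real.norm_eq_abs, abs_mul]
      congr 1
      rw [abs_of_nonneg]
      rw [pow_mul]; positivity
    simp_rw [this]
    rw [integral_const_mul, hmom]
    have h3 : 0 < mo θ (i + m) := (aMO.1 θ h0 (by linarith)).2.2 _
    have h4 : |cm (al θ) m i| * x ^ i = |cm (al θ) m i * x ^ i| := by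
      rw [abs_mul, abs_of_nonneg (pow_nonneg hx i)]
    rw [h4, hE, abs_mul _ (mo θ (i + m)), abs_of_pos h3]
  have hS : Summable fun i : ℕ => ∫ y : ℝ, ‖(cm cc m i * x ^ i) * y ^ (2 * (i + m))‖ ∂(nu θ) := by
    simp_rw [hN]
    exact ent_cm (ent_al h0 h1) m x hx
  have hH := hasSum_integral_of_summable_integral_norm hInt hS
  simp_rw [hI] at hH
  have h5 : S (al θ) m x = ∫ y : ℝ, ∑' i : ℕ, (cm cc m i * x ^ i) * y ^ (2 * (i + m)) ∂(nu θ) := hH.tsum_eq
  rw [h5]
  congr 1
  funext y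
  unfold S
  rw [← tsum_mul_left]
  refine tsum_congr fun i => ?_
  rw [mul_pow, ← pow_mul, show 2 * (i + m) = 2 * m + 2 * i by ring, pow_add]
  ring

theorem n10 : N10 := by
  intro θ h0 h1
  have hE := ent_al h0 h1
  refine ⟨fun n => ?_, fun m x => ?_, fun m x hx => ?_⟩
  · rw [f0_eq]
    exact S_diff hE n 0
  · rw [f0_eq, S_iter hE]
    rfl
  · rw [f0_eq, S_iter hE, S_al_eq h0 h1 m x hx]
    obtain ⟨hP, hpos, hint, hmom, -⟩ := aLAW h0 h1
    have hb : ∀ y : ℝ, ‖y ^ (2 * m) * S cc m (x * y ^ 2)‖ ≤ ((m.factorial : ℝ) * cc m) * y ^ (2 * m) := by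
      intro y
      have h2 : (0 : ℝ) ≤ y ^ (2 * m) := by
        rw [pow_mul]; positivity
      rw [Real.norm_eq_abs, abs_mul, abs_of_nonneg h2, mul_comm]
      exact mul_le_mul_of_nonneg_right (S_bd m _ (by positivity)) h2
    have h3 := norm_integral_le_of_norm_le ((hint (2 * m)).const_mul ((m.factorial : ℝ) * cc m))
      (Filter.Eventually.of_forall hb)
    rw [integral_const_mul, hmom, Real.norm_eq_abs] at h3
    refine h3.trans ?_
    have h4 := Pool.Agent.Helper69.PT.mo_le aMO h0 h1 m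
    unfold cc
    rw [le_div_iff₀ (by positivity)]
    have h5 : (0 : ℝ) < ((2 * m).factorial : ℝ) := by positivity
    calc (m.factorial : ℝ) * (1 / ((2 * m).factorial : ℝ)) * mo θ m * 2 ^ m
        = (mo θ m * (2 ^ m * (m.factorial : ℝ))) / ((2 * m).factorial : ℝ) := by ring
      _ ≤ 1 := by
        rw [div_le_one h5]
        exact h4

end Pool.Agent.Helper15.P705
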